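import Pool.Agent.Lib.MP_06e9af_co.Far

/-!
Greedy extension of a rooted subtree with prescribed target sets.
-/

namespace Pool.Agent.Lib.MP_06e9af_co

open Finset

variable {α V : Type*} [DecidableEq α] [Fintype V] [DecidableEq V] {T : SimpleGraph α}
  {G : SimpleGraph V}

lemma PS.greedyS {x : α} {h : α → ℕ} {par : α → α} (P : PS T x h par) (S : α → Finset V)
    {U0 : Finset α} (hx : x ∈ U0) (c0 : ∀ u ∈ U0, u ≠ x → par u ∈ U0) {f0 : α → V}
    (hf0 : SC T G U0 f0) (m0 : ∀ u ∈ U0, f0 u ∈ S u) (W : Finset α)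
    (step : ∀ u ∈ W, u ∉ U0 → ∀ z ∈ S (par u),
      ((W.erase u).filter (fun w => ¬ Disjoint (S w) (S u))).card < (nb G z ∩ S u).card)
    (U : Finset α) (hW : U ⊆ W) (hU : U0 ⊆ U) (cU : ∀ u ∈ U, u ≠ x → par u ∈ U) :
    ∃ f, SC T G U f ∧ (∀ u ∈ U0, f u = f0 u) ∧ ∀ u ∈ U, f u ∈ S u := by
  induction hn : U.card using Nat.strong_induction_on generalizing U with
  | _ n ih =>
    rcases (U \ U0).eq_empty_or_nonempty with h0 | h0
    · have : U = U0 := Subset.antisymm (sdiff_eq_empty_iff_subset.mp h0) hU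
      subst this
      exact ⟨f0, hf0, fun _ _ => rfl, m0⟩
    obtain ⟨u, hu, hmax⟩ := (U \ U0).exists_max_image h h0
    rw [mem_sdiff] at hu
    have hux : u ≠ x := fun he => hu.2 (he ▸ hx)
    have nochild : ∀ w ∈ U, w ≠ x → par w ≠ u := by
      intro w hw hwx hp
      by_cases w0 : w ∈ U0
      · exact hu.2 (hp ▸ c0 w w0 hwx)
      · have := hmax w (mem_sdiff.mpr ⟨hw, w0⟩)
        have h2 := (P.up w hwx).2
        rw [hp] at h2
        omega
    obtain ⟨f, f1, f2, f3⟩ := ih _ (by rw [← hn]; exact card_erase_lt_of_mem hu.1) (U.erase u)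
      ((erase_subset _ _).trans hW)
      (fun w hw => mem_erase.mpr ⟨fun he => hu.2 (he ▸ hw), hU hw⟩)
      (fun w hw hwx => mem_erase.mpr ⟨nochild w (mem_of_mem_erase hw) hwx,
        cU w (mem_of_mem_erase hw) hwx⟩) rfl
    have pu : par u ∈ U.erase u := mem_erase.mpr ⟨(P.up u hux).1.ne.symm, cU u hu.1 hux⟩
    have st := step u (hW hu.1) hu.2 _ (f3 _ pu)
    obtain ⟨z, z1, z2⟩ : ∃ z ∈ nb G (f (par u)) ∩ S u, z ∉
        ((W.erase u).filter (fun w => ¬ Disjoint (S w) (S u))).image f := by
      by_contra hc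
      push Not at hc
      have := (card_le_card hc).trans card_image_le
      omega
    rw [mem_inter, mem_nb] at z1
    have zn : ∀ w ∈ U.erase u, f w ≠ z := by
      intro w hw he
      refine z2 (mem_image.mpr ⟨w, mem_filter.mpr ⟨erase_subset_erase _ hW hw, ?_⟩, he⟩)
      exact not_disjoint_iff.mpr ⟨z, he ▸ f3 w hw, z1.2⟩
    have fo : ∀ w, w ≠ u → Function.update f u z w = f w := fun w hw =>
      Function.update_of_ne hw _ _
    have fu : Function.update f u z u = z := Function.update_self _ _ _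
    have me : ∀ w ∈ U, w ≠ u → w ∈ U.erase u := fun w a b => mem_erase.mpr ⟨b, a⟩
    have adj : ∀ w ∈ U, T.Adj u w → G.Adj z (f w) := by
      intro w hw ha
      rcases P.edge u w ha with ⟨-, b⟩ | ⟨a, b⟩
      · rw [← b]; exact z1.1.symm
      · exact absurd b (nochild w hw a)
    refine ⟨Function.update f u z, ⟨?_, ?_⟩, ?_, ?_⟩
    · intro a ha b hb hab
      by_cases h1 : a = u <;> by_cases h2 : b = u
      · rw [h1, h2]
      · rw [h1, fu, fo b h2] at hab; exact absurd hab.symm (zn b (me b hb h2))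
      · rw [h2, fu, fo a h1] at hab; exact absurd hab (zn a (me a ha h1))
      · rw [fo a h1, fo b h2] at hab
        exact f1.1 (mem_coe.mpr (me a ha h1)) (mem_coe.mpr (me b hb h2)) hab
    · intro a ha b hb hab
      by_cases h1 : a = u <;> by_cases h2 : b = u
      · rw [h1, h2] at hab; exact absurd hab (T.loopless.irrefl _)
      · rw [h1, fu, fo b h2]; exact adj b hb (h1 ▸ hab)
      · rw [h2, fu, fo a h1]; exact (adj a ha (h2 ▸ hab.symm)).symm
      · rw [fo a h1, fo b h2]; exact f1.2 a (me a ha h1) b (me b hb h2) hab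
    · intro w hw
      rw [fo w (fun he => hu.2 (he ▸ hw)), f2 w hw]
    · intro w hw
      by_cases h1 : w = u
      · rw [h1, fu]; exact z1.2
      · rw [fo w h1]; exact f3 w (me w hw h1)

variable [Fintype α] {x : α} {h : α → ℕ} {par : α → α} {L : Finset α}

/-- embedding of the tree without the leaves `L`, then counting the free neighbours -/
lemma PS.place (P : PS T x h par) (hL : ∀ y ∈ L, LeafOf T y x) (nG : ¬ Cp T G)
    (S : α → Finset V) {v : V} (hx : S x = {v})
    (step : ∀ u, u ∉ L → u ≠ x → ∀ z ∈ S (par u),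
      (((univ \ L).erase u).filter (fun w => ¬ Disjoint (S w) (S u))).card < (nb G z ∩ S u).card)
    (F : Finset α) (hF : ∀ u ∈ F, u ∉ L ∧ u ≠ x ∧ ∀ z ∈ S u, ¬ G.Adj v z) :
    (nb G v).card + F.card + 2 ≤ Fintype.card α := by
  have xL : x ∉ L := fun hx => (hL x hx).1.ne rfl
  obtain ⟨f, f1, f2, f3⟩ := P.greedyS (G := G) S (U0 := {x}) (mem_singleton_self x)
    (fun u hu hux => absurd (mem_singleton.mp hu) hux) (f0 := fun _ => v)
    ⟨by simp, fun u hu u' hu' ha => by
      rw [mem_singleton.mp hu, mem_singleton.mp hu'] at ha; exact absurd ha (T.loopless.irrefl _)⟩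
    (fun u hu => by rw [mem_singleton.mp hu, hx]; exact mem_singleton_self v) (univ \ L)
    (fun u hu h0 => step u (by simpa using hu) (by simpa using h0)) (univ \ L) subset_rfl
    (by simpa using xL) (fun u _ hux => by simpa using par_not_leaf P hL hux)
  have fx : f x = v := f2 x (mem_singleton_self x)
  have d := f1.deg hL nG
  have c : F ⊆ Far G (univ \ L) x f := by
    intro u hu
    obtain ⟨a, b, c⟩ := hF u hu
    have hu' : u ∈ univ \ L := by simpa using a
    exact mem_Far.mpr ⟨hu', b, fx ▸ c _ (f3 u hu')⟩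
  have c2 := card_le_card c
  have c3 := card_sdiff_add_card_eq_card (subset_univ L)
  rw [fx] at d
  rw [card_univ] at c3
  omega

lemma PS.sparse (P : PS T x h par) (hL : ∀ y ∈ L, LeafOf T y x) (nG : ¬ Cp T G) {v : V}
    {A Q : Finset V} (hA : ∀ a ∈ A, G.Adj v a)
    (hdeg : Fintype.card α ≤ (nb G v).card + 1 ∨ ((∀ b ∈ Q, ¬ G.Adj v b) ∧ Fintype.card α ≤
      (nb G v).card + 1 + ((univ \ L).filter (fun u => u ≠ x ∧ Even (h u))).card)) :
    ∑ a ∈ A, (nb G a ∩ Q).card ≤ (univ \ L).card * (A.card + Q.card) := by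
  classical
  by_contra hcon
  obtain ⟨A', a1, B', b1, ⟨b0, hb0⟩, dA, dB⟩ := dense_part G.Adj (univ \ L).card _ A Q rfl (by
    refine lt_of_lt_of_le (not_le.mp hcon) (le_of_eq (sum_congr rfl (fun a _ => ?_)))
    rw [← card_filter]; congr 1; ext b; simp [and_comm])
  have eA : ∀ a, B'.filter (fun b => G.Adj a b) = nb G a ∩ B' := by
    intro a; ext b; simp [and_comm]
  have eB : ∀ b, A'.filter (fun a => G.Adj a b) = nb G b ∩ A' := by
    intro b; ext a; simp [and_comm, G.adj_comm]
  set S : α → Finset V := fun u => if u = x then {v} else if Even (h u) then B' else A' with hS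
  have key := fun F hF => P.place hL nG S (v := v) (by simp [hS]) (by
    intro u _ hux z hz
    refine lt_of_le_of_lt ((card_filter_le _ _).trans (card_erase_le)) ?_
    have hp := (P.up u hux).2
    by_cases p1 : par u = x
    · have : ¬ Even (h u) := by rw [← hp, p1, P.root]; simp
      simp only [hS, p1, if_true, mem_singleton, hux, if_false, this] at hz ⊢
      subst hz
      refine lt_of_lt_of_le (dB b0 hb0) (card_le_card ?_)
      intro a ha
      have := (mem_filter.mp ha).1
      simp [this, hA a (a1 this)]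
    by_cases p2 : Even (h (par u))
    · have : ¬ Even (h u) := by rw [← hp, Nat.even_add_one]; simpa using p2
      simp only [hS, p1, if_true, hux, if_false, this, p2] at hz ⊢
      rw [← eB]; exact dB z hz
    · have : Even (h u) := by rw [← hp, Nat.even_add_one]; exact p2
      simp only [hS, p1, if_true, hux, if_false, this, p2] at hz ⊢
      rw [← eA]; exact dA z hz) F hF
  rcases hdeg with hdeg | ⟨hQ, hdeg⟩
  · have := key ∅ (by simp)
    omega
  · have := key ((univ \ L).filter (fun u => u ≠ x ∧ Even (h u))) (by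
      intro u hu
      simp only [mem_filter, mem_sdiff, mem_univ, true_and] at hu
      refine ⟨hu.1, hu.2.1, fun z hz => hQ z (b1 ?_)⟩
      simpa [hS, hu.2.1, hu.2.2] using hz)
    omega

omit [Fintype α] [DecidableEq α] in
lemma crossN (G : SimpleGraph V) (C D : Finset V) :
    ∑ c ∈ C, (nb G c ∩ D).card = ∑ z ∈ D, (nb G z ∩ C).card := by
  classical
  have e : ∀ (X : Finset V) (u : V), (nb G u ∩ X).card = ∑ w ∈ X, if G.Adj u w then 1 else 0 := by
    intro X u
    rw [← card_filter]; congr 1; ext w; simp [and_comm]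
  simp only [e]
  rw [sum_comm]
  refine sum_congr rfl (fun z _ => sum_congr rfl (fun c _ => ?_))
  simp only [G.adj_comm]

omit [Fintype α] in
lemma exists_sys (G : SimpleGraph V) (X Y Z0 : Finset V) (hZ : Z0 ⊆ X) (c : α → ℕ) {D r e : ℕ}
    (v : V) (hY : ∀ y ∈ Y, D + e ≤ (nb G y ∩ X).card) (hX : ∀ z ∈ X, (nb G z ∩ Y).card ≤ r)
    (I : Finset α) (hc : ∀ u ∈ I, c u ≤ D)
    (big : r * (Z0.card + ∑ u ∈ I, c u) < (e + 1) * (Y.card - I.card)) :
    ∃ (y : α → V) (Z : α → Finset V),
      (∀ u ∈ I, y u ∈ Y ∧ Z u ⊆ X ∧ Disjoint (Z u) Z0 ∧ (Z u).card = c u ∧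
        ∀ z ∈ Z u, G.Adj (y u) z) ∧
      ∀ u ∈ I, ∀ w ∈ I, u ≠ w → y u ≠ y w ∧ Disjoint (Z u) (Z w) := by
  induction I using Finset.induction_on with
  | empty => exact ⟨fun _ => v, fun _ => ∅, by simp, by simp⟩
  | insert a I ha ih =>
    rw [sum_insert ha, card_insert_of_notMem ha] at big
    have mono : r * (Z0.card + ∑ u ∈ I, c u) ≤ r * (Z0.card + (c a + ∑ u ∈ I, c u)) :=
      Nat.mul_le_mul_left _ (by omega)
    have mono2 : (e + 1) * (Y.card - (I.card + 1)) ≤ (e + 1) * (Y.card - I.card) :=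
      Nat.mul_le_mul_left _ (by omega)
    obtain ⟨y, Z, h1, h2⟩ := ih (fun u hu => hc u (mem_insert_of_mem hu)) (by omega)
    set F := Z0 ∪ I.biUnion Z with hF
    have FX : F ⊆ X := union_subset hZ (biUnion_subset.mpr (fun u hu => (h1 u hu).2.1))
    have cF : F.card ≤ Z0.card + ∑ u ∈ I, c u := by
      refine (card_union_le _ _).trans (Nat.add_le_add_left (card_biUnion_le.trans ?_) _)
      exact le_of_eq (sum_congr rfl (fun u hu => (h1 u hu).2.2.2.1))
    obtain ⟨y0, y01, y2⟩ : ∃ y0 ∈ Y \ I.image y, (nb G y0 ∩ F).card ≤ e := by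
      by_contra hcon
      push Not at hcon
      have e1 := card_nsmul_le_sum _ _ (e + 1) (fun y0 h0 => Nat.succ_le_of_lt (hcon y0 h0))
      rw [crossN] at e1
      have e2 := sum_le_card_nsmul F (fun z => (nb G z ∩ (Y \ I.image y)).card) r (fun z hz =>
        (card_le_card (inter_subset_inter_left sdiff_subset)).trans (hX z (FX hz)))
      have e3 : (I.image y).card ≤ I.card := card_image_le
      have e4 : F.card * r ≤ r * (Z0.card + ∑ u ∈ I, c u) := by
        rw [mul_comm]; exact Nat.mul_le_mul_left _ cF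
      have e5 := le_card_sdiff (I.image y) Y
      have e6 : (e + 1) * (Y.card - I.card) ≤ (Y \ I.image y).card * (e + 1) := by
        rw [mul_comm]; exact Nat.mul_le_mul_right _ (by omega)
      simp only [smul_eq_mul] at e1 e2
      omega
    obtain ⟨y1, y3⟩ := mem_sdiff.mp y01
    obtain ⟨Z1, z0, z2⟩ := exists_subset_card_eq (show c a ≤ ((nb G y0 ∩ X) \ F).card by
      have e1 := hc a (mem_insert_self _ _)
      have e2 := hY y0 y1
      have e3 := card_sdiff_add_card_inter (nb G y0 ∩ X) F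
      have e4 : ((nb G y0 ∩ X) ∩ F).card ≤ (nb G y0 ∩ F).card :=
        card_le_card (inter_subset_inter_right inter_subset_left)
      omega)
    have z1 : Z1 ⊆ nb G y0 ∩ X := z0.trans sdiff_subset
    have dF : ∀ z ∈ Z1, z ∉ F := fun z hz => (mem_sdiff.mp (z0 hz)).2
    have ne : ∀ u ∈ I, u ≠ a := fun u hu e => ha (e ▸ hu)
    have dd : ∀ w ∈ I, y0 ≠ y w ∧ Disjoint Z1 (Z w) := fun w hw =>
      ⟨fun e => y3 (mem_image.mpr ⟨w, hw, e.symm⟩), disjoint_left.mpr (fun z hz h' =>
        dF z hz (mem_union_right _ (mem_biUnion.mpr ⟨w, hw, h'⟩)))⟩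
    refine ⟨Function.update y a y0, Function.update Z a Z1, ?_, ?_⟩
    · intro u hu
      rcases mem_insert.mp hu with rfl | hu
      · simp only [Function.update_self]
        exact ⟨y1, fun z hz => (mem_inter.mp (z1 hz)).2,
          disjoint_left.mpr (fun z hz h' => dF z hz (mem_union_left _ h')), z2,
          fun z hz => mem_nb.mp (mem_inter.mp (z1 hz)).1⟩
      · simp only [Function.update_of_ne (ne u hu)]
        exact h1 u hu
    · intro u hu w hw huw
      rcases mem_insert.mp hu with e1 | hu' <;> rcases mem_insert.mp hw with e2 | hw'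
      · exact absurd (e1.trans e2.symm) huw
      · simp only [e1, Function.update_self, Function.update_of_ne (ne w hw')]
        exact dd w hw'
      · simp only [e2, Function.update_self, Function.update_of_ne (ne u hu')]
        exact ⟨(dd u hu').1.symm, (dd u hu').2.symm⟩
      · simp only [Function.update_of_ne (ne u hu'), Function.update_of_ne (ne w hw')]
        exact h2 u hu' w hw' huw

end Pool.Agent.Lib.MP_06e9af_co
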