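import Pool.Agent.Lib.MP_06e9af_co.Near.A

/-!
The last embedding: two almost complete parts and a bipartite graph of minimum degree `D`.
-/

namespace Pool.Agent.Lib.MP_06e9af_co

open Finset

variable {α V : Type*} [DecidableEq α] [Fintype V] [DecidableEq V] {T : SimpleGraph α}
  {R B : SimpleGraph V} [Fintype α] {x : α} {h : α → ℕ} {par : α → α} {L : Finset α}

/-- children of a vertex -/
def kids (x : α) (par : α → α) (u : α) : Finset α := univ.filter (fun w => w ≠ x ∧ par w = u)

lemma PS.last (P : PS T x h par) (hL : ∀ y ∈ L, LeafOf T y x) (hc : Col R B) (nR : ¬ Cp T R)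
    (X : Finset V) {r D M e : ℕ} (hM : (univ \ L).card = M)
    (r1 : ∀ w ∈ X, (nb B w ∩ X).card ≤ r ∧ (nb R w ∩ Xᶜ).card ≤ r)
    (r2 : ∀ w ∈ Xᶜ, (nb B w ∩ Xᶜ).card ≤ r ∧ (nb R w ∩ X).card ≤ r)
    (hD : ∀ y ∈ Xᶜ, D + e ≤ (nb R y ∩ X).card)
    (c1 : r * (r + M) < (e + 1) * (Xᶜ.card - (M + r + 1))) (c2 : 2 * r + 2 * M + 2 ≤ X.card)
    (hbig : (univ.filter (fun u => u ≠ x ∧ par u = x ∧ D < (kids x par u).card)).card ≤ D) :
    ∃ v, (nb R v).card + ((univ \ L).filter (fun u => u ≠ x ∧ Even (h u))).card + 2 ≤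
      Fintype.card α := by
  classical
  obtain ⟨v, hv⟩ : Xᶜ.Nonempty := card_pos.mp (by
    by_contra h0
    rw [show Xᶜ.card - (M + r + 1) = 0 by omega] at c1
    omega)
  have vX : v ∉ X := mem_compl.mp hv
  refine ⟨v, ?_⟩
  have own : ∀ (W : Finset V) (w : V), W.card ≤ (nb R w ∩ W).card + (nb B w ∩ W).card + 1 := by
    intro W w
    have : W ⊆ insert w ((nb R w ∩ W) ∪ (nb B w ∩ W)) := by
      intro z hz
      by_cases e1 : z = w
      · rw [e1]; exact mem_insert_self _ _
      · have := hc w z (fun e' => e1 e'.symm)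
        simp only [mem_insert, mem_union, mem_inter, mem_nb]
        tauto
    have h1 := card_le_card this
    have h2 := card_insert_le w ((nb R w ∩ W) ∪ (nb B w ∩ W))
    have h3 := card_union_le (nb R w ∩ W) (nb B w ∩ W)
    omega
  set I := (univ \ L).filter (fun u => u ≠ x ∧ par u = x ∧ (kids x par u).card ≤ D) with hI
  have mI : ∀ u, u ∈ I ↔ u ∉ L ∧ u ≠ x ∧ par u = x ∧ (kids x par u).card ≤ D := by simp [hI]
  have mk : ∀ u w, w ∈ kids x par u ↔ w ≠ x ∧ par w = u := by simp [kids]
  have cI : I.card ≤ M := hM ▸ card_filter_le _ _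
  have sI : ∑ u ∈ I, (kids x par u).card ≤ M := by
    rw [← card_biUnion, ← hM]
    · refine card_le_card (fun w hw => ?_)
      obtain ⟨u, hu, hw⟩ := mem_biUnion.mp hw
      simp only [mem_sdiff, mem_univ, true_and]
      intro hl
      have := (hL w hl).2 _ (P.up w ((mk u w).mp hw).1).1
      exact ((mI u).mp hu).2.1 (((mk u w).mp hw).2 ▸ this)
    · intro a _ b _ hab
      exact disjoint_left.mpr (fun w h1 h2 => hab (((mk a w).mp h1).2.symm.trans ((mk b w).mp h2).2))
  obtain ⟨y, Z, h1, h2⟩ := exists_sys R X (nb R v ∩ Xᶜ) (nb R v ∩ X) inter_subset_right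
    (fun u => (kids x par u).card) (D := D) (r := r) (e := e) v
    (fun y hy => hD y (mem_inter.mp hy).2)
    (fun z hz => (card_le_card (inter_subset_inter_left inter_subset_right)).trans (r1 z hz).2)
    I (fun u hu => ((mI u).mp hu).2.2.2) (by
      have a1 := own Xᶜ v
      have a2 := r2 v hv
      have a3 : r * ((nb R v ∩ X).card + ∑ u ∈ I, (kids x par u).card) ≤ r * (r + M) :=
        Nat.mul_le_mul_left _ (by omega)
      have a4 : (e + 1) * (Xᶜ.card - (M + r + 1)) ≤ (e + 1) * ((nb R v ∩ Xᶜ).card - I.card) :=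
        Nat.mul_le_mul_left _ (by omega)
      omega)
  set X0 := X \ ((nb R v ∩ X) ∪ I.biUnion Z) with hX0
  have m0 : ∀ z, z ∈ X0 ↔ z ∈ X ∧ ¬ R.Adj v z ∧ ∀ u ∈ I, z ∉ Z u := by
    intro z
    simp only [hX0, mem_sdiff, mem_union, mem_inter, mem_nb, mem_biUnion, not_or, not_and,
      not_exists]
    tauto
  have yX : ∀ u ∈ I, y u ∉ X := fun u hu => mem_compl.mp (mem_inter.mp (h1 u hu).1).2
  have yv : ∀ u ∈ I, R.Adj v (y u) := fun u hu => mem_nb.mp (mem_inter.mp (h1 u hu).1).1
  have Zv : ∀ u ∈ I, ∀ z ∈ Z u, z ∈ X ∧ ¬ R.Adj v z := fun u hu z hz =>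
    ⟨(h1 u hu).2.1 hz, fun a => disjoint_left.mp (h1 u hu).2.2.1 hz
      (mem_inter.mpr ⟨mem_nb.mpr a, (h1 u hu).2.1 hz⟩)⟩
  set S : α → Finset V := fun u => if u = x then {v} else if u ∈ I then {y u}
    else if par u = x then nb R v ∩ X else if par u ∈ I then Z (par u) else X0 with hS
  have cs : ∀ w z, z ∈ S w → (w = x ∧ z = v) ∨ (w ∈ I ∧ z = y w) ∨
      (w ≠ x ∧ w ∉ I ∧ par w = x ∧ R.Adj v z ∧ z ∈ X) ∨
      (w ≠ x ∧ w ∉ I ∧ par w ∈ I ∧ z ∈ Z (par w)) ∨ (w ≠ x ∧ w ∉ I ∧ z ∈ X0) := by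
    intro w z hz
    simp only [hS] at hz
    split_ifs at hz with a b c d
    · exact Or.inl ⟨a, mem_singleton.mp hz⟩
    · exact Or.inr (Or.inl ⟨b, mem_singleton.mp hz⟩)
    · exact Or.inr (Or.inr (Or.inl ⟨a, b, c, by simpa using hz⟩))
    · exact Or.inr (Or.inr (Or.inr (Or.inl ⟨a, b, d, hz⟩)))
    · exact Or.inr (Or.inr (Or.inr (Or.inr ⟨a, b, hz⟩)))
  refine P.place hL nR S (v := v) (by simp [hS]) ?_ _ ?_
  · intro u hu hux z hz
    by_cases a : u ∈ I
    · have pu := ((mI u).mp a).2.2.1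
      have e : S u = {y u} := by simp [hS, hux, a]
      have zv : z = v := by simpa [hS, pu] using hz
      have e0 : ((univ \ L).erase u).filter (fun w => ¬ Disjoint (S w) (S u)) = ∅ := by
        refine filter_eq_empty_iff.mpr (fun w hw => ?_)
        rw [not_not, e, disjoint_singleton_right]
        intro hy
        rcases cs w _ hy with b | b | b | b | b
        · exact (yv u a).ne b.2.symm
        · exact (h2 u a w b.1 (ne_of_mem_erase hw).symm).1 b.2
        · exact yX u a b.2.2.2.2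
        · exact yX u a (Zv _ b.2.2.1 _ b.2.2.2).1
        · exact yX u a ((m0 _).mp b.2.2).1
      rw [e0, e, zv]
      exact card_pos.mpr ⟨y u, by simp [yv u a]⟩
    by_cases b : par u = x
    · have e : S u = nb R v ∩ X := by simp [hS, hux, a, b]
      have zv : z = v := by simpa [hS, b] using hz
      have big : ∀ w, w ∉ L → w ≠ x → w ∉ I → par w = x →
          w ∈ univ.filter (fun u => u ≠ x ∧ par u = x ∧ D < (kids x par u).card) := by
        intro w w1 w2 w3 w4
        simp only [mem_filter, mem_univ, true_and]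
        exact ⟨w2, w4, not_le.mp (fun w5 => w3 ((mI w).mpr ⟨w1, w2, w4, w5⟩))⟩
      have e0 : ((univ \ L).erase u).filter (fun w => ¬ Disjoint (S w) (S u)) ⊆
          (univ.filter (fun u => u ≠ x ∧ par u = x ∧ D < (kids x par u).card)).erase u := by
        intro w hw
        obtain ⟨w1, w2⟩ := mem_filter.mp hw
        obtain ⟨z', z1, z2⟩ := not_disjoint_iff.mp w2
        rw [e, mem_inter, mem_nb] at z2
        refine mem_erase.mpr ⟨ne_of_mem_erase w1, ?_⟩
        rcases cs w _ z1 with c | c | c | c | c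
        · exact absurd (c.2 ▸ z2.2) vX
        · exact absurd (c.2 ▸ z2.2) (yX w c.1)
        · exact big w (by simpa using mem_of_mem_erase w1) c.1 c.2.1 c.2.2.1
        · exact absurd z2.1 (Zv _ c.2.2.1 _ c.2.2.2).2
        · exact absurd z2.1 ((m0 _).mp c.2.2).2.1
      have k1 := card_le_card e0
      have k0 := card_pos.mpr ⟨u, big u hu hux a b⟩
      rw [card_erase_of_mem (big u hu hux a b)] at k1
      have k2 := hD v hv
      rw [e, zv, ← inter_assoc, inter_self]
      rw [e] at k1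
      omega
    by_cases c : par u ∈ I
    · have e : S u = Z (par u) := by simp [hS, hux, a, b, c]
      have zv : z = y (par u) := by simpa [hS, b, c] using hz
      have e0 : ((univ \ L).erase u).filter (fun w => ¬ Disjoint (S w) (S u)) ⊆
          (kids x par (par u)).erase u := by
        intro w hw
        obtain ⟨w1, w2⟩ := mem_filter.mp hw
        obtain ⟨z', z1, z2⟩ := not_disjoint_iff.mp w2
        rw [e] at z2
        have z3 := Zv _ c _ z2
        refine mem_erase.mpr ⟨ne_of_mem_erase w1, ?_⟩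
        rcases cs w _ z1 with d | d | d | d | d
        · exact absurd (d.2 ▸ z3.1) vX
        · exact absurd (d.2 ▸ z3.1) (yX w d.1)
        · exact absurd d.2.2.2.1 z3.2
        · refine (mk _ _).mpr ⟨d.1, ?_⟩
          by_contra hne
          exact disjoint_left.mp (h2 _ d.2.2.1 _ c hne).2 d.2.2.2 z2
        · exact absurd z2 (((m0 _).mp d.2.2).2.2 _ c)
      have k1 := card_le_card e0
      have ku : u ∈ kids x par (par u) := (mk _ _).mpr ⟨hux, rfl⟩
      have k0 := card_pos.mpr ⟨u, ku⟩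
      rw [card_erase_of_mem ku] at k1
      have k2 : Z (par u) ⊆ nb R (y (par u)) ∩ Z (par u) := fun z' hz' =>
        mem_inter.mpr ⟨mem_nb.mpr ((h1 _ c).2.2.2.2 z' hz'), hz'⟩
      have k3 := card_le_card k2
      have k4 := (h1 _ c).2.2.2.1
      rw [e] at k1
      rw [e, zv]
      omega
    · have e : S u = X0 := by simp [hS, hux, a, b, c]
      have zX : z ∈ X := by
        rcases cs _ _ hz with d | d | d | d | d
        · exact absurd d.1 b
        · exact absurd d.1 c
        · exact d.2.2.2.2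
        · exact (Zv _ d.2.2.1 _ d.2.2.2).1
        · exact ((m0 _).mp d.2.2).1
      refine lt_of_le_of_lt ((card_filter_le _ _).trans card_erase_le) ?_
      have k1 := own X0 z
      have k2 : (nb B z ∩ X0).card ≤ r :=
        (card_le_card (inter_subset_inter_left sdiff_subset)).trans (r1 z zX).1
      have k3 := le_card_sdiff ((nb R v ∩ X) ∪ I.biUnion Z) X
      have k4 := card_union_le (nb R v ∩ X) (I.biUnion Z)
      have k5 : (I.biUnion Z).card ≤ ∑ u ∈ I, (kids x par u).card :=
        card_biUnion_le.trans (le_of_eq (sum_congr rfl (fun u hu => (h1 u hu).2.2.2.1)))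
      have k6 := (r2 v hv).2
      rw [e, hM]
      rw [← hX0] at k3
      omega
  · intro u hu
    simp only [mem_filter, mem_sdiff, mem_univ, true_and] at hu
    refine ⟨hu.1, hu.2.1, fun z hz => ?_⟩
    have np : par u ≠ x := by
      intro e
      have := (P.up u hu.2.1).2
      rw [e, P.root] at this
      have h3 := hu.2.2
      rw [← this] at h3
      simp at h3
    rcases cs _ _ hz with d | d | d | d | d
    · exact absurd d.1 hu.2.1
    · exact absurd ((mI u).mp d.1).2.2.1 np
    · exact absurd d.2.2.1 np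
    · exact (Zv _ d.2.2.1 _ d.2.2.2).2
    · exact ((m0 _).mp d.2.2).2.1

end Pool.Agent.Lib.MP_06e9af_co
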