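import Pool.Agent.Lib.MP_06e9af_co.Near.B

/-!
Trees with few vertices that are not leaves at one vertex: the structure of a colouring.
-/

namespace Pool.Agent.Lib.MP_06e9af_co

open Finset

variable {V : Type*} [Fintype V] [DecidableEq V] {R B : SimpleGraph V}

lemma noprod {a b M n N : ℕ} (h : a * b ≤ 2 * (M * N)) (hN : N ≤ 3 * n) (ha : n ≤ 4 * a)
    (hb : 25 * M ≤ b) (hM : 0 < M) (hn : 0 < n) : False := by
  have h1 : n * (25 * M) ≤ 4 * a * b := Nat.mul_le_mul ha hb
  have h2 : M * N ≤ M * (3 * n) := Nat.mul_le_mul_left _ hN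
  have h3 : 0 < M * n := Nat.mul_pos hM hn
  nlinarith

lemma Col.own (hc : Col R B) (W : Finset V) (w : V) :
    W.card ≤ (nb R w ∩ W).card + (nb B w ∩ W).card + 1 ∧
      (w ∉ W → W.card ≤ (nb R w ∩ W).card + (nb B w ∩ W).card) := by
  have h0 : W.erase w ⊆ (nb R w ∩ W) ∪ (nb B w ∩ W) := by
    intro z hz
    have := hc w z (ne_of_mem_erase hz).symm
    have := mem_of_mem_erase hz
    simp only [mem_union, mem_inter, mem_nb]
    tauto
  have h1 := card_le_card h0
  have h2 := pred_card_le_card_erase (s := W) (a := w)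
  have h3 := card_union_le (nb R w ∩ W) (nb B w ∩ W)
  refine ⟨by omega, fun hw => ?_⟩
  rw [erase_eq_of_notMem hw] at h1
  omega

lemma Col.prod (hc : Col R B) {P Q : Finset V} (hd : Disjoint P Q) :
    P.card * Q.card ≤ ∑ a ∈ P, (nb R a ∩ Q).card + ∑ a ∈ P, (nb B a ∩ Q).card := by
  rw [← sum_add_distrib]
  exact card_nsmul_le_sum P _ Q.card (fun a ha => (hc.own Q a).2 (disjoint_left.mp hd ha))

omit [DecidableEq V] in
lemma Col.dj (hc : Col R B) (v : V) : Disjoint (nb R v) (nb B v) :=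
  disjoint_left.mpr (fun _ h1 h2 => hc.not_both (mem_nb.mp h1) (mem_nb.mp h2))

omit [DecidableEq V] in
lemma two_le {P Q : Finset V} (hd : Disjoint P Q) (M : ℕ) :
    M * (P.card + Q.card) ≤ M * Fintype.card V := by
  classical
  rw [← card_union_of_disjoint hd]
  exact Nat.mul_le_mul_left _ (card_le_univ _)

omit [Fintype V] [DecidableEq V] in
lemma few_big (S : Finset V) (f : V → ℕ) {M n N : ℕ} (h : ∑ a ∈ S, f a ≤ M * N) (hN : N ≤ 3 * n) :
    S.card ≤ (S.filter (fun a => f a ≤ n / 8)).card + 24 * M := by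
  have h1 := card_filter_add_card_filter_not (s := S) (fun a => f a ≤ n / 8)
  have h2 := card_nsmul_le_sum (S.filter (fun a => ¬ f a ≤ n / 8)) f (n / 8 + 1)
    (fun a ha => by have := (mem_filter.mp ha).2; omega)
  have h3 : ∑ a ∈ S.filter (fun a => ¬ f a ≤ n / 8), f a ≤ ∑ a ∈ S, f a :=
    sum_le_sum_of_subset (filter_subset _ _)
  have h4 : M * N ≤ M * (24 * (n / 8 + 1)) := Nat.mul_le_mul_left _ (by omega)
  have h5 : (S.filter (fun a => ¬ f a ≤ n / 8)).card ≤ 24 * M := by
    refine Nat.le_of_mul_le_mul_right (c := n / 8 + 1) ?_ (by omega)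
    simp only [smul_eq_mul] at h2
    calc _ ≤ M * (24 * (n / 8 + 1)) := h2.trans (h3.trans (h.trans h4))
      _ = _ := by ring
  omega

/-- the two sparseness properties of a colour -/
structure Sp (G : SimpleGraph V) (n t M : ℕ) : Prop where
  s1 : ∀ v (A Q : Finset V), (∀ a ∈ A, G.Adj v a) → n ≤ (nb G v).card + 1 →
    ∑ a ∈ A, (nb G a ∩ Q).card ≤ M * (A.card + Q.card)
  s2 : ∀ v (A Q : Finset V), (∀ a ∈ A, G.Adj v a) → (∀ b ∈ Q, ¬ G.Adj v b) →
    t ≤ (nb G v).card → ∑ a ∈ A, (nb G a ∩ Q).card ≤ M * (A.card + Q.card)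

variable {n t M : ℕ}

lemma step1 (hc : Col R B) (sR : Sp R n t M) (sB : Sp B n t M) (hM : 0 < M) (hn : 1000 * M ≤ n)
    (N1 : 2 * n ≤ Fintype.card V + 2 * M) (N2 : Fintype.card V ≤ 3 * n) (v : V) :
    (nb R v).card + 2 ≤ n := by
  by_contra hv
  obtain ⟨P, p1, p2⟩ := exists_subset_card_eq (show n / 4 ≤ (nb R v).card by omega)
  have mP : ∀ a ∈ P, R.Adj v a := fun a ha => mem_nb.mp (p1 ha)
  have d1 : Disjoint P Pᶜ := disjoint_compl_right
  have a1 := (sR.s1 v P Pᶜ mP (by omega)).trans (two_le d1 M)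
  obtain ⟨w, hw, hw'⟩ := exists_le_of_sum_le (s := P) (f := fun a => (nb R a ∩ Pᶜ).card)
    (g := fun _ => 13 * M) (card_pos.mp (by omega)) (by
      rw [sum_const, smul_eq_mul, p2]
      calc _ ≤ M * Fintype.card V := a1
        _ ≤ M * (13 * (n / 4)) := Nat.mul_le_mul_left _ (by omega)
        _ = _ := by ring)
  have a2 := (hc.own Pᶜ w).1
  rw [card_compl, p2] at a2
  have a3 : (nb B w ∩ Pᶜ).card ≤ (nb B w).card := card_le_card inter_subset_left
  have d2 : Disjoint P (nb B w ∩ Pᶜ) := d1.mono_right inter_subset_right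
  have a4 := (sR.s1 v P (nb B w ∩ Pᶜ) mP (by omega)).trans (two_le d2 M)
  have a5 := (sB.s1 w (nb B w ∩ Pᶜ) P (fun a ha => mem_nb.mp (mem_inter.mp ha).1)
    (by omega)).trans (two_le d2.symm M)
  rw [crossN] at a5
  have a6 := hc.prod d2
  exact noprod (a := (nb B w ∩ Pᶜ).card) (b := P.card) (M := M) (n := n) (N := Fintype.card V)
    (by rw [mul_comm]; omega) N2 (by omega) (by omega) hM (by omega)

lemma step2 (hc : Col R B) (sR : Sp R n t M) (sB : Sp B n t M) (hM : 0 < M) (hn : 1000 * M ≤ n)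
    (N1 : 2 * n ≤ Fintype.card V + 2 * M) (N2 : Fintype.card V ≤ 3 * n) {v : V}
    (hv : t ≤ (nb R v).card) (w : V) : (nb B w).card < t := by
  by_contra hw
  have u1 := step1 hc sR sB hM hn N1 N2
  have u2 := step1 hc.symm sB sR hM hn N1 N2
  have g1 := hc.deg v
  have g2 := hc.deg w
  have v1 := u1 v
  have v2 := u2 v
  have w1 := u1 w
  have w2 := u2 w
  have nr : ∀ {a b : V}, b ∈ nb B a → ¬ R.Adj a b := fun h h' => hc.not_both h' (mem_nb.mp h)
  have nb' : ∀ {a b : V}, b ∈ nb R a → ¬ B.Adj a b := fun h => hc.not_both (mem_nb.mp h)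
  have d1 : Disjoint (nb B w ∩ nb R v) (nb R w ∩ nb B v) :=
    (hc.dj v).mono inter_subset_right inter_subset_right
  have d2 : Disjoint (nb B w ∩ nb B v) (nb R w ∩ nb R v) :=
    (hc.dj v).symm.mono inter_subset_right inter_subset_right
  have a1 := (sR.s2 v _ _ (fun a ha => mem_nb.mp (mem_inter.mp ha).2)
    (fun a ha => nr (mem_inter.mp ha).2) hv).trans (two_le d1 M)
  have a2 := (sB.s2 w _ _ (fun a ha => mem_nb.mp (mem_inter.mp ha).1)
    (fun a ha => nb' (mem_inter.mp ha).1) (by omega)).trans (two_le d1 M)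
  have a3 := (sR.s2 v _ _ (fun a ha => mem_nb.mp (mem_inter.mp ha).2)
    (fun a ha => nr (mem_inter.mp ha).2) hv).trans (two_le d2.symm M)
  have a4 := (sB.s2 w _ _ (fun a ha => mem_nb.mp (mem_inter.mp ha).1)
    (fun a ha => nb' (mem_inter.mp ha).1) (by omega)).trans (two_le d2 M)
  rw [crossN] at a3
  have b1 := hc.prod d1
  have b2 := hc.prod d2
  have c1 := (hc.own (nb R v) w).1
  have c2 := (hc.own (nb B v) w).1
  have c3 := (hc.own (nb B w) v).1
  have c4 := (hc.own (nb R w) v).1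
  rw [inter_comm (nb R v), inter_comm (nb B v)] at c3 c4
  have k1 : ¬ (_ ∧ _) := fun h => noprod (a := (nb B w ∩ nb R v).card) (b := (nb R w ∩ nb B v).card)
    (M := M) (n := n) (N := Fintype.card V) (by omega) N2 h.1 h.2 hM (by omega)
  have k2 : ¬ (_ ∧ _) := fun h => noprod (b := (nb B w ∩ nb R v).card) (a := (nb R w ∩ nb B v).card)
    (M := M) (n := n) (N := Fintype.card V) (by rw [mul_comm]; omega) N2 h.1 h.2 hM (by omega)
  have k3 : ¬ (_ ∧ _) := fun h => noprod (a := (nb B w ∩ nb B v).card) (b := (nb R w ∩ nb R v).card)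
    (M := M) (n := n) (N := Fintype.card V) (by omega) N2 h.1 h.2 hM (by omega)
  have k4 : ¬ (_ ∧ _) := fun h => noprod (b := (nb B w ∩ nb B v).card) (a := (nb R w ∩ nb R v).card)
    (M := M) (n := n) (N := Fintype.card V) (by rw [mul_comm]; omega) N2 h.1 h.2 hM (by omega)
  omega

lemma dich (hc : Col R B) (sR : Sp R n t M) (hM : 0 < M) (hn : 1000 * M ≤ n)
    (N2 : Fintype.card V ≤ 3 * n) (hR : ∀ w, t ≤ (nb R w).card) {S : Finset V}
    (hS : ∀ a ∈ S, (nb B a ∩ S).card ≤ n / 8 + 2 * M) (cS : n ≤ S.card + 30 * M) (w : V) :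
    (nb B w ∩ S).card ≤ 25 * M ∨ (nb R w ∩ S).card ≤ 25 * M := by
  by_contra hcon
  have d1 : Disjoint (nb R w ∩ S) (nb B w ∩ S) :=
    (hc.dj w).mono inter_subset_left inter_subset_left
  have a1 := (sR.s2 w _ _ (fun a ha => mem_nb.mp (mem_inter.mp ha).1)
    (fun a ha h' => hc.not_both h' (mem_nb.mp (mem_inter.mp ha).1)) (hR w)).trans (two_le d1 M)
  have a2 := (hc.own S w).1
  have key : ∀ P Q : Finset V, P ⊆ S → Q ⊆ S → n ≤ 2 * P.card + 30 * M + 1 → 25 * M ≤ Q.card →
      ∑ b ∈ Q, (nb R b ∩ P).card ≤ M * Fintype.card V → False := by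
    intro P Q hP hQ c1 c2 c3
    have c4 := card_nsmul_le_sum Q (fun b => (nb R b ∩ P).card) (n / 4 + 1) (fun b hb => by
      have e1 := (hc.own P b).1
      have e2 : (nb B b ∩ P).card ≤ (nb B b ∩ S).card := card_le_card (inter_subset_inter_left hP)
      have e3 := hS b (hQ hb)
      omega)
    simp only [smul_eq_mul] at c4
    exact noprod (a := n / 4 + 1) (b := Q.card) (M := M) (n := n) (N := Fintype.card V)
      (by rw [mul_comm]; omega) N2 (by omega) c2 hM (by omega)
  by_cases hle : (nb B w ∩ S).card ≤ (nb R w ∩ S).card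
  · rw [crossN] at a1
    exact key _ _ inter_subset_right inter_subset_right (by omega) (by omega) a1
  · exact key _ _ inter_subset_right inter_subset_right (by omega) (by omega) a1

lemma step3 (hc : Col R B) (sR : Sp R n t M) (sB : Sp B n t M) (hM : 0 < M) (hn : 1000 * M ≤ n)
    (N1 : 2 * n ≤ Fintype.card V + 2 * M) (N2 : Fintype.card V ≤ 3 * n) (ht : t < n)
    (N3 : 2 * t ≤ Fintype.card V) (hB : ∀ w, (nb B w).card < t) :
    ∃ X : Finset V, n ≤ X.card + 30 * M ∧ n ≤ Xᶜ.card + 30 * M ∧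
      (∀ w ∈ X, (nb B w ∩ X).card ≤ 74 * M ∧ (nb R w ∩ Xᶜ).card ≤ 74 * M) ∧
      ∀ w ∈ Xᶜ, (nb B w ∩ Xᶜ).card ≤ 74 * M ∧ (nb R w ∩ X).card ≤ 74 * M := by
  classical
  obtain ⟨v⟩ : Nonempty V := Fintype.card_pos_iff.mp (by omega)
  have u1 := step1 hc sR sB hM hn N1 N2
  have hR : ∀ w, t ≤ (nb R w).card := fun w => by have := hc.deg w; have := hB w; omega
  have lR : ∀ w, n ≤ (nb R w).card + 2 * M := fun w => by
    have := hc.deg w; have := hB w; omega
  have lB : ∀ w, n ≤ (nb B w).card + 2 * M := fun w => by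
    have := hc.deg w; have := u1 w; omega
  have a1 := (sR.s2 v _ _ (fun a ha => mem_nb.mp ha)
    (fun a ha h' => hc.not_both h' (mem_nb.mp ha)) (hR v)).trans (two_le (hc.dj v) M)
  have f1 := few_big _ _ a1 N2
  rw [crossN] at a1
  have f2 := few_big _ _ a1 N2
  set A1 := (nb R v).filter (fun a => (nb R a ∩ nb B v).card ≤ n / 8) with hA1
  set B1 := (nb B v).filter (fun a => (nb R a ∩ nb R v).card ≤ n / 8) with hB1
  have sA : A1 ⊆ nb R v := filter_subset _ _
  have sB1 : B1 ⊆ nb B v := filter_subset _ _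
  have dAB : Disjoint A1 B1 := (hc.dj v).mono sA sB1
  have v1 := lR v
  have v2 := lB v
  have split : ∀ (G : SimpleGraph V) (a : V),
      (nb G a ∩ nb R v).card + (nb G a ∩ nb B v).card ≤ (nb G a).card := by
    intro G a
    rw [← card_union_of_disjoint ((hc.dj v).mono inter_subset_right inter_subset_right)]
    exact card_le_card (union_subset inter_subset_left inter_subset_left)
  have iA : ∀ a ∈ A1, (nb B a ∩ A1).card ≤ n / 8 + 2 * M := by
    intro a ha
    have e1 := (mem_filter.mp ha).2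
    have e2 := (hc.own (nb B v) a).1
    have e3 := split B a
    have e4 := hB a
    have e5 : (nb B a ∩ A1).card ≤ (nb B a ∩ nb R v).card :=
      card_le_card (inter_subset_inter_left sA)
    omega
  have iB : ∀ a ∈ B1, (nb B a ∩ B1).card ≤ n / 8 + 2 * M := by
    intro a ha
    have e1 := (mem_filter.mp ha).2
    have e2 := (hc.own (nb R v) a).1
    have e3 := split B a
    have e4 := hB a
    have e5 : (nb B a ∩ B1).card ≤ (nb B a ∩ nb B v).card :=
      card_le_card (inter_subset_inter_left sB1)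
    omega
  have dA := dich hc sR hM hn N2 hR iA (by omega)
  have dB := dich hc sR hM hn N2 hR iB (by omega)
  have cE : (A1 ∪ B1)ᶜ.card ≤ 48 * M + 1 := by
    rw [card_compl, card_union_of_disjoint dAB]
    have := hc.deg v
    omega
  have tot : ∀ (G : SimpleGraph V) (w : V),
      (nb G w).card ≤ (nb G w ∩ A1).card + (nb G w ∩ B1).card + (48 * M + 1) := by
    intro G w
    have e0 : nb G w ⊆ ((nb G w ∩ A1) ∪ (nb G w ∩ B1)) ∪ (A1 ∪ B1)ᶜ := by
      intro z hz
      simp only [mem_union, mem_inter, mem_compl, hz, true_and]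
      tauto
    have e1 := card_le_card e0
    have e2 := card_union_le ((nb G w ∩ A1) ∪ (nb G w ∩ B1)) (A1 ∪ B1)ᶜ
    have e3 := card_union_le (nb G w ∩ A1) (nb G w ∩ B1)
    omega
  have part : ∀ (G : SimpleGraph V) (w : V) (W S S' : Finset V), S ∪ S' = A1 ∪ B1 → S' ⊆ Wᶜ →
      (nb G w ∩ W).card ≤ (nb G w ∩ S).card + (48 * M + 1) := by
    intro G w W S S' e hW
    have e0 : nb G w ∩ W ⊆ (nb G w ∩ S) ∪ (A1 ∪ B1)ᶜ := by
      intro z hz
      rw [mem_inter] at hz
      have : z ∉ S' := fun h' => mem_compl.mp (hW h') hz.2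
      rw [← e]
      simp only [mem_union, mem_inter, mem_compl, hz.1, true_and]
      tauto
    have e1 := card_le_card e0
    have e2 := card_union_le (nb G w ∩ S) (A1 ∪ B1)ᶜ
    omega
  set X := univ.filter (fun w => (nb B w ∩ A1).card ≤ 25 * M) with hX
  have mX : ∀ w, w ∈ X ↔ (nb B w ∩ A1).card ≤ 25 * M := by simp [hX]
  have AX : A1 ⊆ X := by
    intro a ha
    rw [mX]
    have e1 := dA a
    have e2 := iA a ha
    have e3 := (hc.own A1 a).1
    omega
  have BX : B1 ⊆ Xᶜ := by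
    intro a ha
    rw [mem_compl, mX]
    have e1 := (mem_filter.mp ha).2
    have e2 : (nb R a ∩ A1).card ≤ (nb R a ∩ nb R v).card :=
      card_le_card (inter_subset_inter_left sA)
    have e3 := (hc.own A1 a).1
    omega
  have AX' : A1 ⊆ Xᶜᶜ := by rwa [compl_compl]
  have k1 := card_le_card AX
  have k2 := card_le_card BX
  refine ⟨X, by omega, by omega, fun w hw => ?_, fun w hw => ?_⟩
  · rw [mX] at hw
    have e1 := part B w X A1 B1 rfl BX
    have e2 := part R w Xᶜ B1 A1 (union_comm _ _) AX'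
    have e3 := dB w
    have e4 := tot B w
    have e5 := lB w
    omega
  · rw [mem_compl, mX] at hw
    have e1 := part R w X A1 B1 rfl BX
    have e2 := part B w Xᶜ B1 A1 (union_comm _ _) AX'
    have e3 := dB w
    have e6 := dA w
    have e4 := tot R w
    have e5 := lR w
    omega

end Pool.Agent.Lib.MP_06e9af_co
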