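import Pool.Agent.Lib.MP_06e9af_co.Near.C

/-!
Trees with few vertices that are not leaves at one vertex: the upper bound.
-/

namespace Pool.Agent.Lib.MP_06e9af_co

open Finset

variable {α V : Type*} [DecidableEq α] [Fintype V] [DecidableEq V] {T : SimpleGraph α}
  {R B : SimpleGraph V} [Fintype α] {x : α} {h : α → ℕ} {par : α → α} {L : Finset α}

lemma near_main (P : PS T x h par) (hL : ∀ y ∈ L, LeafOf T y x) (hc : Col R B) {D M t n : ℕ}
    (hM : (univ \ L).card = M) (hα : Fintype.card α = n) (hn : 1000 * M ≤ n)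
    (ht : t + ((univ \ L).filter (fun u => u ≠ x ∧ Even (h u))).card + 1 = n)
    (hD : 1 ≤ D) (hDM : D ≤ M)
    (hbig : (univ.filter (fun u => u ≠ x ∧ par u = x ∧ D < (kids x par u).card)).card ≤ D)
    (hV : Fintype.card V = 2 * t + (2 * (D + 7000 * M ^ 2 / n) - 3))
    (nR : ¬ Cp T R) (nB : ¬ Cp T B) {v : V} (hv : t ≤ (nb R v).card) : False := by
  obtain ⟨e, he⟩ : ∃ e, 7000 * M ^ 2 / n = e := ⟨_, rfl⟩
  have M0 : 0 < M := by omega
  have n0 : 0 < n := by omega
  have e1 : e ≤ 7 * M := by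
    rw [← he]
    refine Nat.div_le_of_le_mul ?_
    calc 7000 * M ^ 2 = 1000 * M * (7 * M) := by ring
      _ ≤ n * (7 * M) := Nat.mul_le_mul_right _ hn
  have e2 : 7000 * M ^ 2 < n * (e + 1) := he ▸ Nat.lt_mul_div_succ _ n0
  rw [he] at hV
  have xL : x ∉ L := fun hx => (hL x hx).1.ne rfl
  have s1 : ((univ \ L).filter (fun u => u ≠ x ∧ Even (h u))).card + 1 ≤ M := by
    have : (univ \ L).filter (fun u => u ≠ x ∧ Even (h u)) ⊆ (univ \ L).erase x := fun u hu =>
      mem_erase.mpr ⟨(mem_filter.mp hu).2.1, (mem_filter.mp hu).1⟩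
    have h1 := card_le_card this
    rw [card_erase_of_mem (by simpa using xL), hM] at h1
    omega
  have sp : ∀ G : SimpleGraph V, ¬ Cp T G → Sp G n t M := fun G nG =>
    ⟨fun v A Q hA hd => hM ▸ P.sparse hL nG hA (Or.inl (by omega)),
      fun v A Q hA hQ hd => hM ▸ P.sparse hL nG hA (Or.inr ⟨hQ, by omega⟩)⟩
  have N1 : 2 * n ≤ Fintype.card V + 2 * M := by omega
  have N2 : Fintype.card V ≤ 3 * n := by omega
  have hB := step2 hc (sp R nR) (sp B nB) M0 hn N1 N2 hv
  obtain ⟨X, x1, x2, x3, x4⟩ := step3 hc (sp R nR) (sp B nB) M0 hn N1 N2 (by omega) (by omega) hB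
  have fin : ∀ X : Finset V, n ≤ X.card + 30 * M → n ≤ Xᶜ.card + 30 * M →
      (∀ w ∈ X, (nb B w ∩ X).card ≤ 74 * M ∧ (nb R w ∩ Xᶜ).card ≤ 74 * M) →
      (∀ w ∈ Xᶜ, (nb B w ∩ Xᶜ).card ≤ 74 * M ∧ (nb R w ∩ X).card ≤ 74 * M) →
      Xᶜ.card ≤ X.card → False := by
    intro X x1 x2 x3 x4 x5
    have cc := card_add_card_compl X
    obtain ⟨w, hw⟩ := P.last hL hc nR X (e := e) hM x3 x4 (fun y hy => by
      have a1 := hc.deg y
      have a2 := hB y
      have a3 := card_inter_add_card_sdiff (nb R y) X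
      have a4 : nb R y \ X ⊆ Xᶜ.erase y := by
        intro z hz
        rw [mem_sdiff, mem_nb] at hz
        exact mem_erase.mpr ⟨hz.1.ne.symm, mem_compl.mpr hz.2⟩
      have a5 := card_le_card a4
      rw [card_erase_of_mem hy] at a5
      omega) (by
      have a1 : (e + 1) * (4 * n) ≤ (e + 1) * (5 * (Xᶜ.card - (M + 74 * M + 1))) :=
        Nat.mul_le_mul_left _ (by omega)
      nlinarith) (by omega) hbig
    have a1 := hc.deg w
    have a2 := hB w
    omega
  rcases le_total Xᶜ.card X.card with a | a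
  · exact fin X x1 x2 x3 x4 a
  · refine fin Xᶜ x2 ?_ ?_ ?_ ?_ <;> rw [compl_compl] <;> assumption

open Classical in
theorem near_arrows {n : ℕ} {T : SimpleGraph (Fin n)} (hT : T.IsTree) (x : Fin n) (D M : ℕ)
    (hD : 1 ≤ D) (hM : {y | T.neighborSet y ≠ {x}}.ncard = M) (hn : 1000 * M ≤ n)
    (hbig : {u | T.Adj x u ∧ D + 1 < (T.neighborSet u).ncard}.ncard ≤ D) :
    ∃ r, IsRamseyNumber T r ∧ r ≤ 2 * {v | Odd (T.dist x v)}.ncard +
      (2 * (D + 7000 * M ^ 2 / n) - 3) := by
  obtain ⟨par, P⟩ := exists_PS_dist hT x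
  set L : Finset (Fin n) := univ.filter (fun y => T.neighborSet y = {x}) with hLd
  have hL : ∀ y ∈ L, LeafOf T y x := fun y hy => leafOf_of_nbr (by simpa [hLd] using hy)
  have cM : (univ \ L).card = M := by
    rw [← hM, ← Set.ncard_coe_finset]; congr 1; ext y; simp [hLd]
  have xL : x ∉ L := fun hx => (hL x hx).1.ne rfl
  have M0 : 0 < M := cM ▸ card_pos.mpr ⟨x, by simpa using xL⟩
  have ht : {v | Odd (T.dist x v)}.ncard +
      ((univ \ L).filter (fun u => u ≠ x ∧ Even (T.dist x u))).card + 1 = n := by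
    have a1 : {v | Odd (T.dist x v)}.ncard =
        (univ.filter (fun v => ¬ Even (T.dist x v))).card := by
      rw [← Set.ncard_coe_finset]; congr 1; ext v; simp
    have a2 : (univ \ L).filter (fun u => u ≠ x ∧ Even (T.dist x u)) =
        (univ.filter (fun v => Even (T.dist x v))).erase x := by
      ext u
      simp only [mem_filter, mem_sdiff, mem_univ, true_and, mem_erase]
      refine ⟨fun h => h.2, fun h => ⟨fun hl => ?_, h⟩⟩
      have := leaf_height P (hL u hl)
      have h2 := h.2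
      rw [this] at h2
      simp at h2
    have a3 := card_filter_add_card_filter_not (s := (univ : Finset (Fin n)))
      (fun v => Even (T.dist x v))
    have a4 : x ∈ univ.filter (fun v => Even (T.dist x v)) := by simp
    have a5 := card_pos.mpr ⟨x, a4⟩
    rw [a1, a2, card_erase_of_mem a4]
    rw [card_univ, Fintype.card_fin] at a3
    omega
  have kd : ∀ u, u ≠ x → (kids x par u).card + 1 ≤ (T.neighborSet u).ncard := by
    intro u hu
    rw [ncard_nb]
    have a0 : par u ∉ kids x par u := by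
      intro hk
      simp only [kids, mem_filter, mem_univ, true_and] at hk
      have a1 := (P.up u hu).2
      have a2 := (P.up _ hk.1).2
      rw [hk.2] at a2
      omega
    rw [← card_insert_of_notMem a0]
    refine card_le_card (fun w hw => mem_nb.mpr ?_)
    rcases mem_insert.mp hw with rfl | hw
    · exact (P.up u hu).1
    · simp only [kids, mem_filter, mem_univ, true_and] at hw
      exact hw.2 ▸ (P.up w hw.1).1.symm
  have kM : ∀ u, u ≠ x → (kids x par u).card ≤ M := by
    intro u hu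
    rw [← cM]
    refine card_le_card (fun w hw => ?_)
    simp only [kids, mem_filter, mem_univ, true_and] at hw
    simp only [mem_sdiff, mem_univ, true_and]
    exact fun hl => hu (hw.2 ▸ (hL w hl).2 _ (P.up w hw.1).1)
  have big : (univ.filter (fun u => u ≠ x ∧ par u = x ∧ min D M < (kids x par u).card)).card ≤
      min D M := by
    by_cases hDM : D ≤ M
    · rw [min_eq_left hDM]
      refine le_trans ?_ hbig
      rw [← Set.ncard_coe_finset]
      refine Set.ncard_le_ncard (fun u hu => ?_) (Set.toFinite _)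
      simp only [coe_filter, mem_univ, true_and, Set.mem_ofPred_eq] at hu ⊢
      have := kd u hu.1
      exact ⟨hu.2.1 ▸ (P.up u hu.1).1.symm, by omega⟩
    · rw [filter_eq_empty_iff.mpr (fun u _ hu => by have := kM u hu.1; omega)]
      simp
  obtain ⟨t, htd⟩ : ∃ t, {v | Odd (T.dist x v)}.ncard = t := ⟨_, rfl⟩
  rw [htd] at ht ⊢
  have ar : Arrows T (2 * t + (2 * (min D M + 7000 * M ^ 2 / n) - 3)) := by
    intro G
    by_contra hcon
    rw [not_or] at hcon
    have nR : ¬ Cp T G := fun h => hcon.1 h.contained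
    have nB : ¬ Cp T Gᶜ := fun h => hcon.2 h.contained
    have s1 := card_filter_le (univ \ L) (fun u => u ≠ x ∧ Even (T.dist x u))
    have hc := col_compl G
    obtain ⟨v⟩ : Nonempty (Fin (2 * t + (2 * (min D M + 7000 * M ^ 2 / n) - 3))) :=
      ⟨⟨0, by omega⟩⟩
    have dg := hc.deg v
    rw [Fintype.card_fin] at dg
    by_cases hv : t ≤ (nb G v).card
    · exact near_main P hL hc cM (Fintype.card_fin n) hn ht (by omega) (min_le_right _ _) big
        (Fintype.card_fin _) nR nB hv
    · exact near_main P hL hc.symm cM (Fintype.card_fin n) hn ht (by omega) (min_le_right _ _) big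
        (Fintype.card_fin _) nB nR (v := v) (by omega)
  obtain ⟨r, r1, r2⟩ := exists_ramsey ar
  exact ⟨r, r1, by omega⟩

end Pool.Agent.Lib.MP_06e9af_co
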